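import Mathlib

/-!
The choice of the parameters of the sub-board.
-/

set_option autoImplicit false

namespace WW

open Filter

lemma pow_le_choose (a k : ℕ) : k ^ a ≤ a ^ a * (a + k).choose k := by
  have h1 : (k + 1) ^ a ≤ (k + 1).ascFactorial a := Nat.pow_succ_le_ascFactorial (k + 1) a
  rw [Nat.ascFactorial_eq_factorial_mul_choose] at h1
  have h2 : (k + a).choose a = (a + k).choose k := by
    rw [add_comm k a, Nat.choose_symm_add]
  rw [h2] at h1
  calc k ^ a ≤ (k + 1) ^ a := Nat.pow_le_pow_left (Nat.le_succ k) a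
    _ ≤ a.factorial * (a + k).choose k := h1
    _ ≤ a ^ a * (a + k).choose k := Nat.mul_le_mul_right _ (Nat.factorial_le_pow a)

lemma choose_big_of {n a k : ℕ} (hn : 2 ≤ n) (ha : 0 < a) (hk : 0 < k)
    (h : (n : ℝ) * Real.log 2 + Real.log n ≤ a * Real.log ((k : ℝ) / a)) :
    n * 2 ^ n < 8 * (a + k).choose k := by
  have hn0 : (0 : ℝ) < n := by
    have : 0 < n := by omega
    exact_mod_cast this
  have ha0 : (0 : ℝ) < a := by exact_mod_cast ha
  have hk0 : (0 : ℝ) < k := by exact_mod_cast hk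
  have h1 : (n : ℝ) * 2 ^ n ≤ ((k : ℝ) / a) ^ a := by
    rw [← Real.log_le_log_iff (by positivity) (by positivity), Real.log_mul (by positivity)
      (by positivity), Real.log_pow, Real.log_pow]
    linarith
  have h2 : ((k : ℝ) / a) ^ a ≤ ((a + k).choose k : ℕ) := by
    rw [div_pow, div_le_iff₀ (by positivity), mul_comm]
    exact_mod_cast pow_le_choose a k
  have h3 : (n * 2 ^ n : ℕ) ≤ (a + k).choose k := by
    have : ((n * 2 ^ n : ℕ) : ℝ) ≤ ((a + k).choose k : ℕ) := by
      push_cast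
      exact h1.trans h2
    exact_mod_cast this
  have h4 : 0 < n * 2 ^ n := by positivity
  omega

/-- The parameters: `θ = 1/2` for geometric lines and `θ = 1` for combinatorial lines. -/
lemma params {θ ε : ℝ} (hθ : 0 ≤ θ) (hθ1 : θ ≤ 1) (hε : 0 < ε) (hε1 : ε ≤ 1 / 2) :
    ∀ᶠ n : ℕ in atTop, ∀ q : ℕ, (q : ℝ) ≤ θ * n + 1 → ∃ a k : ℕ, 0 < a ∧ 0 < k ∧
      ((k + q * a : ℕ) : ℝ) ≤ (θ * Real.log 2 + ε) * (n : ℝ) ^ 2 / Real.log n ∧
      n * 2 ^ n < 8 * (a + k).choose k := by
  -- the eventual facts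
  have hlog : Tendsto (fun n : ℕ => Real.log n) atTop atTop :=
    Real.tendsto_log_atTop.comp tendsto_natCast_atTop_atTop
  have f0 : ∀ᶠ n : ℕ in atTop, 2 ≤ n := eventually_ge_atTop 2
  have f1 : ∀ᶠ n : ℕ in atTop, 8 / ε + 8 ≤ Real.log n := hlog.eventually_ge_atTop _
  have f2 : ∀ᶠ n : ℕ in atTop, Real.log (2 * Real.log n) ≤ ε / 16 * Real.log n := by
    have h1 : (fun x : ℝ => Real.log (2 * x)) =o[atTop] fun x : ℝ => x := by
      have h2 : (fun x : ℝ => Real.log x) =o[atTop] fun x : ℝ => x := Real.isLittleO_log_id_atTop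
      have h3 : Tendsto (fun x : ℝ => 2 * x) atTop atTop :=
        tendsto_id.const_mul_atTop (by norm_num)
      have h4 := h2.comp_tendsto h3
      have h5 : (fun x : ℝ => 2 * x) =O[atTop] fun x : ℝ => x :=
        Asymptotics.isBigO_const_mul_self _ _ _
      exact h4.trans_isBigO h5
    have h6 := h1.def (show (0 : ℝ) < ε / 16 by positivity)
    have h7 := hlog.eventually h6
    filter_upwards [h7, f1] with n hn hn1
    have hpos : 0 < Real.log n := by
      have : 0 < 8 / ε := by positivity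
      linarith
    rw [Real.norm_eq_abs, Real.norm_eq_abs, abs_of_pos hpos] at hn
    exact (le_abs_self _).trans hn
  have f3 : ∀ᶠ n : ℕ in atTop, Real.log n ≤ ε / 32 * n := by
    have h2 : (fun x : ℝ => Real.log x) =o[atTop] fun x : ℝ => x := Real.isLittleO_log_id_atTop
    have h6 := h2.def (show (0 : ℝ) < ε / 32 by positivity)
    have h7 := tendsto_natCast_atTop_atTop (R := ℝ) |>.eventually h6
    filter_upwards [h7] with n hn
    rw [Real.norm_eq_abs, Real.norm_eq_abs, abs_of_nonneg (Nat.cast_nonneg n : (0 : ℝ) ≤ n)] at hn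
    exact (le_abs_self _).trans hn
  filter_upwards [f0, f1, f2, f3] with n g0 g1 g2 g3 q hq
  set L := Real.log n with hL
  have hn0 : (0 : ℝ) < n := by
    have : 0 < n := by omega
    exact_mod_cast this
  have hLpos : 0 < L := by
    have : 0 < 8 / ε := by positivity
    linarith
  have hL1 : 8 ≤ L := by
    have : 0 < 8 / ε := by positivity
    linarith
  have hLn : L ≤ n := by
    have : ε / 32 * (n : ℝ) ≤ 1 * n := by
      apply mul_le_mul_of_nonneg_right _ hn0.le
      linarith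
    linarith
  have hl2 := Real.log_two_lt_d9
  have hl2' := Real.log_two_gt_d9
  set A : ℝ := (Real.log 2 + ε / 2) * n / L with hA
  have hA0 : 0 < A := by
    rw [hA]
    have : 0 < Real.log 2 + ε / 2 := by linarith
    positivity
  set a : ℕ := ⌈A⌉₊ with ha
  set k : ℕ := ⌈(n : ℝ) ^ 2 / L ^ 2⌉₊ with hk
  have ha1 : A ≤ a := Nat.le_ceil A
  have ha2 : (a : ℝ) < A + 1 := Nat.ceil_lt_add_one hA0.le
  have hkpos : 0 < (n : ℝ) ^ 2 / L ^ 2 := by positivity
  have hk1 : (n : ℝ) ^ 2 / L ^ 2 ≤ k := Nat.le_ceil _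
  have hk2 : (k : ℝ) < (n : ℝ) ^ 2 / L ^ 2 + 1 := Nat.ceil_lt_add_one hkpos.le
  have hapos : 0 < a := Nat.ceil_pos.2 hA0
  have hkpos' : 0 < k := Nat.ceil_pos.2 hkpos
  have ha0 : (0 : ℝ) < a := by exact_mod_cast hapos
  refine ⟨a, k, hapos, hkpos', ?_, ?_⟩
  · -- the dimension
    set R : ℝ := (n : ℝ) ^ 2 / L with hR
    have hRpos : 0 < R := by positivity
    have e1 : (n : ℝ) ^ 2 / L ^ 2 = R / L := by
      rw [hR]; field_simp
    have e2 : (n : ℝ) * A = (Real.log 2 + ε / 2) * R := by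
      rw [hA, hR]; field_simp
    have e3 : R / L ≤ ε / 8 * R := by
      rw [div_le_iff₀ hLpos]
      have h1 : 8 / ε ≤ L := by linarith
      have h2 : 8 ≤ L * ε := (div_le_iff₀ hε).1 h1
      nlinarith
    have e4 : (n : ℝ) ≤ ε / 32 * R := by
      rw [hR, mul_div_assoc', le_div_iff₀ hLpos]
      nlinarith
    have e5 : A ≤ n := by
      rw [hA, div_le_iff₀ hLpos]
      nlinarith
    have e6 : (1 : ℝ) ≤ n := by linarith
    have hq0 : (0 : ℝ) ≤ q := Nat.cast_nonneg q
    have e7 : (q : ℝ) * a ≤ θ * ((Real.log 2 + ε / 2) * R) + 3 * n := by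
      have h1 : (q : ℝ) * a ≤ (θ * n + 1) * (A + 1) :=
        mul_le_mul hq ha2.le ha0.le (by positivity)
      have h2 : (θ * n + 1) * (A + 1) = θ * (n * A) + θ * n + A + 1 := by ring
      have h3 : θ * n ≤ 1 * n := mul_le_mul_of_nonneg_right hθ1 hn0.le
      rw [h2, e2] at h1
      linarith
    push_cast
    have e8 : (θ * Real.log 2 + ε) * (n : ℝ) ^ 2 / L = (θ * Real.log 2 + ε) * R := by
      rw [hR]; ring
    rw [e8]
    rw [e1] at hk2
    have e9 : θ * (ε / 2 * R) ≤ 1 * (ε / 2 * R) :=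
      mul_le_mul_of_nonneg_right hθ1 (by positivity)
    nlinarith
  · -- the binomial coefficient
    apply choose_big_of g0 hapos hkpos'
    have h1 : A + 1 ≤ 2 * n / L := by
      rw [le_div_iff₀ hLpos, hA, add_mul, div_mul_cancel₀ _ hLpos.ne']
      nlinarith
    have h2 : (n : ℝ) / (2 * L) ≤ (k : ℝ) / a := by
      rw [div_le_div_iff₀ (by positivity) ha0]
      have h3 : (n : ℝ) * a ≤ n * (2 * n / L) :=
        mul_le_mul_of_nonneg_left (ha2.le.trans h1) hn0.le
      have h4 : (n : ℝ) * (2 * n / L) = (n : ℝ) ^ 2 / L ^ 2 * (2 * L) := by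
        field_simp
      rw [h4] at h3
      exact h3.trans (mul_le_mul_of_nonneg_right hk1 (by positivity))
    have h5 : Real.log ((n : ℝ) / (2 * L)) ≤ Real.log ((k : ℝ) / a) :=
      Real.log_le_log (by positivity) h2
    have h6 : Real.log ((n : ℝ) / (2 * L)) = L - Real.log (2 * L) := by
      rw [Real.log_div hn0.ne' (by positivity)]
    have h7 : (1 - ε / 16) * L ≤ Real.log ((k : ℝ) / a) := by
      rw [h6] at h5
      linarith
    have h8 : A * ((1 - ε / 16) * L) ≤ a * Real.log ((k : ℝ) / a) := by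
      apply mul_le_mul ha1 h7 _ ha0.le
      have : 0 ≤ 1 - ε / 16 := by linarith
      positivity
    have h9 : A * ((1 - ε / 16) * L) = (Real.log 2 + ε / 2) * (1 - ε / 16) * n := by
      rw [hA]; field_simp
    rw [h9] at h8
    refine le_trans ?_ h8
    have h10 : Real.log 2 + ε / 4 ≤ (Real.log 2 + ε / 2) * (1 - ε / 16) := by
      have e1 : (Real.log 2 + ε / 2) * (1 - ε / 16) =
          Real.log 2 + ε / 2 - (ε * Real.log 2) / 16 - (ε * ε) / 32 := by ring
      have e2 : ε * Real.log 2 ≤ ε * 0.6931471808 := mul_le_mul_of_nonneg_left hl2.le hε.le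
      have e3 : ε * ε ≤ ε * (1 / 2) := mul_le_mul_of_nonneg_left hε1 hε.le
      rw [e1]
      linarith
    have h11 : (Real.log 2 + ε / 4) * n ≤ (Real.log 2 + ε / 2) * (1 - ε / 16) * n :=
      mul_le_mul_of_nonneg_right h10 hn0.le
    have h12 : L ≤ ε / 4 * n := by
      have : ε / 32 * (n : ℝ) ≤ ε / 4 * n := by
        apply mul_le_mul_of_nonneg_right _ hn0.le
        linarith
      linarith
    have h13 : (Real.log 2 + ε / 4) * (n : ℝ) = n * Real.log 2 + ε / 4 * n := by ring
    linarith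

end WW
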