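import Mathlib

/-!
Beck's criterion for a weak win (Maker's win) in the form needed here: histories are lists of
points, the first player moves at the histories of even length, and a point belongs to the player
who names it first.
-/

set_option autoImplicit false

namespace WW

open Finset

section potential

variable {P : Type*} [DecidableEq P]

/-- The potential of the position `(M, B)`: the winning sets without points of `B` count
`2 ^ (number of points in M)`. -/
def T (F : Finset (Finset P)) (M B : Finset P) : ℤ :=
  ∑ A ∈ F.filter (fun A => Disjoint A B), 2 ^ (A ∩ M).card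

/-- The part of the potential of the sets that contain `x`. -/
def w (F : Finset (Finset P)) (M B : Finset P) (x : P) : ℤ :=
  ∑ A ∈ F.filter (fun A => Disjoint A B ∧ x ∈ A), 2 ^ (A ∩ M).card

/-- The part of the potential of the sets that contain `x` and `y`. -/
def w2 (F : Finset (Finset P)) (M B : Finset P) (x y : P) : ℤ :=
  ∑ A ∈ F.filter (fun A => Disjoint A B ∧ x ∈ A ∧ y ∈ A), 2 ^ (A ∩ M).card

lemma w_nonneg (F : Finset (Finset P)) (M B : Finset P) (x : P) : 0 ≤ w F M B x :=
  Finset.sum_nonneg fun _ _ => by positivity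

lemma card_inter_insert {A M : Finset P} {x : P} (hx : x ∈ A) (hM : x ∉ M) :
    (A ∩ insert x M).card = (A ∩ M).card + 1 := by
  rw [Finset.inter_insert_of_mem hx, Finset.card_insert_of_notMem]
  intro h
  exact hM (Finset.mem_inter.1 h).2

lemma T_insert_M (F : Finset (Finset P)) (M B : Finset P) {x : P} (hM : x ∉ M) :
    T F (insert x M) B = T F M B + w F M B x := by
  unfold T w
  have h1 : F.filter (fun A => Disjoint A B ∧ x ∈ A) =
      (F.filter (fun A => Disjoint A B)).filter (fun A => x ∈ A) := by
    rw [Finset.filter_filter]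
  rw [h1]
  generalize F.filter (fun A => Disjoint A B) = S
  rw [Finset.sum_filter, ← Finset.sum_add_distrib]
  apply Finset.sum_congr rfl
  intro A _
  by_cases hx : x ∈ A
  · rw [if_pos hx, card_inter_insert hx hM, pow_succ]
    ring
  · rw [if_neg hx, Finset.inter_insert_of_notMem hx, add_zero]

lemma T_insert_B (F : Finset (Finset P)) (M B : Finset P) (y : P) :
    T F M (insert y B) = T F M B - w F M B y := by
  unfold T w
  have h1 : F.filter (fun A => Disjoint A B ∧ y ∈ A) =
      (F.filter (fun A => Disjoint A B)).filter (fun A => y ∈ A) := by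
    rw [Finset.filter_filter]
  have h2 : F.filter (fun A => Disjoint A (insert y B)) =
      (F.filter (fun A => Disjoint A B)).filter (fun A => ¬ y ∈ A) := by
    rw [Finset.filter_filter]
    apply Finset.filter_congr
    intro A _
    rw [Finset.disjoint_insert_right]
    tauto
  rw [h1, h2, eq_sub_iff_add_eq, add_comm, Finset.sum_filter_add_sum_filter_not]

lemma w_insert_M (F : Finset (Finset P)) (M B : Finset P) {x : P} (y : P) (hM : x ∉ M) :
    w F (insert x M) B y = w F M B y + w2 F M B x y := by
  unfold w w2
  have h1 : F.filter (fun A => Disjoint A B ∧ x ∈ A ∧ y ∈ A) =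
      (F.filter (fun A => Disjoint A B ∧ y ∈ A)).filter (fun A => x ∈ A) := by
    rw [Finset.filter_filter]
    apply Finset.filter_congr
    intro A _
    tauto
  rw [h1]
  generalize F.filter (fun A => Disjoint A B ∧ y ∈ A) = S
  rw [Finset.sum_filter, ← Finset.sum_add_distrib]
  apply Finset.sum_congr rfl
  intro A _
  by_cases hx : x ∈ A
  · rw [if_pos hx, card_inter_insert hx hM, pow_succ]
    ring
  · rw [if_neg hx, Finset.inter_insert_of_notMem hx, add_zero]

/-- The hypotheses on the family: `n`-element subsets of `V`, two of which have at most one point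
in common. -/
structure Lin (F : Finset (Finset P)) (V : Finset P) (n : ℕ) : Prop where
  card : ∀ A ∈ F, A.card = n
  sub : ∀ A ∈ F, A ⊆ V
  lin : ∀ A ∈ F, ∀ A' ∈ F, ∀ x y, x ≠ y → x ∈ A → y ∈ A → x ∈ A' → y ∈ A' → A = A'

variable {F : Finset (Finset P)} {V : Finset P} {n : ℕ}

lemma w2_le (hF : Lin F V n) (M B : Finset P) {x y : P} (hxy : x ≠ y) (hx : x ∉ M)
    (hy : y ∉ M) : 4 * w2 F M B x y ≤ 2 ^ n := by
  unfold w2
  set S := F.filter (fun A => Disjoint A B ∧ x ∈ A ∧ y ∈ A) with hS
  rcases S.eq_empty_or_nonempty with h | ⟨A, hA⟩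
  · rw [h]
    simp
  · have hS1 : S = {A} := by
      ext A'
      rw [Finset.mem_singleton]
      constructor
      · intro hA'
        rw [hS, Finset.mem_filter] at hA hA'
        exact hF.lin A' hA'.1 A hA.1 x y hxy hA'.2.2.1 hA'.2.2.2 hA.2.2.1 hA.2.2.2
      · rintro rfl
        exact hA
    rw [hS1, Finset.sum_singleton]
    rw [hS, Finset.mem_filter] at hA
    have h1 : (A ∩ M).card + 2 ≤ n := by
      rw [← hF.card A hA.1]
      have h2 : (A ∩ M) ⊆ (A.erase x).erase y := by
        intro z hz
        rw [Finset.mem_inter] at hz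
        rw [Finset.mem_erase, Finset.mem_erase]
        refine ⟨?_, ?_, hz.1⟩
        · rintro rfl
          exact hy hz.2
        · rintro rfl
          exact hx hz.2
      have h3 := Finset.card_le_card h2
      have h4 : y ∈ A.erase x := Finset.mem_erase.2 ⟨hxy.symm, hA.2.2.2⟩
      have h5 := Finset.card_erase_add_one h4
      have h6 := Finset.card_erase_add_one hA.2.2.1
      omega
    calc (4 : ℤ) * 2 ^ (A ∩ M).card = 2 ^ ((A ∩ M).card + 2) := by rw [pow_add]; ring
      _ ≤ 2 ^ n := pow_le_pow_right₀ (by norm_num) h1

lemma w2_eq_zero (hF : Lin F V n) (M B : Finset P) {x y : P} (h : ¬ (x ∈ V ∧ y ∈ V)) :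
    w2 F M B x y = 0 := by
  unfold w2
  rw [Finset.filter_eq_empty_iff.2, Finset.sum_empty]
  rintro A hA ⟨-, hx, hy⟩
  exact h ⟨hF.sub A hA hx, hF.sub A hA hy⟩

/-- The potential minus the losses still possible. -/
def Φ (F : Finset (Finset P)) (V : Finset P) (n : ℕ) (M B : Finset P) : ℤ :=
  8 * T F M B - 2 ^ n * ((V \ (M ∪ B)).card : ℤ)

lemma Φ_round_waste (M B : Finset P) {x : P} (hx : x ∉ M) :
    Φ F V n M B ≤ Φ F V n (insert x M) B := by
  unfold Φ
  rw [T_insert_M F M B hx]
  have h1 := w_nonneg F M B x
  have h2 : (V \ (insert x M ∪ B)).card ≤ (V \ (M ∪ B)).card := by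
    apply Finset.card_le_card
    apply Finset.sdiff_subset_sdiff (Finset.Subset.refl _)
    exact Finset.union_subset_union_left (Finset.subset_insert _ _)
  have h3 : ((V \ (insert x M ∪ B)).card : ℤ) ≤ ((V \ (M ∪ B)).card : ℤ) := by exact_mod_cast h2
  have h4 : (2 : ℤ) ^ n * ((V \ (insert x M ∪ B)).card : ℤ) ≤
      2 ^ n * ((V \ (M ∪ B)).card : ℤ) := by gcongr
  linarith

lemma Φ_round (hF : Lin F V n) (M B : Finset P) {x y : P} (hx : x ∉ M) (hxB : x ∉ B)
    (hy : y ∉ insert x M ∪ B) (hmax : w F M B y ≤ w F M B x) :
    Φ F V n M B ≤ Φ F V n (insert x M) (insert y B) := by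
  rw [Finset.mem_union, Finset.mem_insert, not_or, not_or] at hy
  obtain ⟨⟨hyx, hyM⟩, hyB⟩ := hy
  unfold Φ
  rw [T_insert_B, T_insert_M F M B hx, w_insert_M F M B y hx]
  by_cases hV : x ∈ V ∧ y ∈ V
  · have h1 := w2_le hF M B (Ne.symm hyx) hx hyM
    have h2 : (V \ (insert x M ∪ insert y B)).card + 2 = (V \ (M ∪ B)).card := by
      have e : V \ (insert x M ∪ insert y B) = ((V \ (M ∪ B)).erase x).erase y := by
        ext z
        simp only [Finset.mem_sdiff, Finset.mem_union, Finset.mem_insert, Finset.mem_erase]
        tauto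
      have hx' : x ∈ V \ (M ∪ B) := by
        simp only [Finset.mem_sdiff, Finset.mem_union]
        exact ⟨hV.1, by tauto⟩
      have hy' : y ∈ (V \ (M ∪ B)).erase x := by
        simp only [Finset.mem_sdiff, Finset.mem_union, Finset.mem_erase]
        exact ⟨hyx, hV.2, by tauto⟩
      rw [e]
      have h3 := Finset.card_erase_add_one hy'
      have h4 := Finset.card_erase_add_one hx'
      omega
    have h3 : ((V \ (M ∪ B)).card : ℤ) = ((V \ (insert x M ∪ insert y B)).card : ℤ) + 2 := by
      exact_mod_cast h2.symm
    rw [h3]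
    nlinarith [h1, hmax]
  · rw [w2_eq_zero hF M B hV]
    have h2 : (V \ (insert x M ∪ insert y B)).card ≤ (V \ (M ∪ B)).card := by
      apply Finset.card_le_card
      apply Finset.sdiff_subset_sdiff (Finset.Subset.refl _)
      exact Finset.union_subset_union (Finset.subset_insert _ _) (Finset.subset_insert _ _)
    have h3 : ((V \ (insert x M ∪ insert y B)).card : ℤ) ≤ ((V \ (M ∪ B)).card : ℤ) := by
      exact_mod_cast h2
    have h4 : (2 : ℤ) ^ n * ((V \ (insert x M ∪ insert y B)).card : ℤ) ≤
        2 ^ n * ((V \ (M ∪ B)).card : ℤ) := by gcongr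
    linarith

end potential

section game

variable {P : Type*} [Fintype P] [DecidableEq P]

/-- The points of the first player after the history `h`. -/
def own (h : List P) : Finset P := univ.filter fun p => p ∈ h ∧ Even (h.idxOf p)

/-- The points of the second player after the history `h`. -/
def opp (h : List P) : Finset P := univ.filter fun p => p ∈ h ∧ ¬ Even (h.idxOf p)

lemma mem_own_union_opp (h : List P) (p : P) : p ∈ own h ∪ opp h ↔ p ∈ h := by
  unfold own opp
  simp only [Finset.mem_union, Finset.mem_filter, Finset.mem_univ, true_and]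
  tauto

omit [Fintype P] [DecidableEq P] in
lemma mem_append_iff (h : List P) (q p : P) : p ∈ h ++ [q] ↔ p ∈ h ∨ p = q := by simp

omit [Fintype P] in
lemma idxOf_append (h : List P) (q p : P) (hp : p ∈ h ++ [q]) :
    (h ++ [q]).idxOf p = if p ∈ h then h.idxOf p else h.length := by
  split_ifs with hm
  · exact List.idxOf_append_of_mem hm
  · have e : p = q := by
      rcases (mem_append_iff h q p).1 hp with h1 | h1
      · exact absurd h1 hm
      · exact h1
    rw [List.idxOf_append_of_notMem hm, e]
    simp

lemma own_append_even (h : List P) (q : P) (hl : Even h.length) (hq : q ∉ h) :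
    own (h ++ [q]) = insert q (own h) ∧ opp (h ++ [q]) = opp h := by
  constructor
  · ext p
    unfold own
    simp only [Finset.mem_filter, Finset.mem_univ, true_and, Finset.mem_insert]
    constructor
    · rintro ⟨h1, h2⟩
      rw [idxOf_append h q p h1] at h2
      rcases (mem_append_iff h q p).1 h1 with h3 | h3
      · rw [if_pos h3] at h2
        exact Or.inr ⟨h3, h2⟩
      · exact Or.inl h3
    · rintro (rfl | ⟨h1, h2⟩)
      · have h3 : p ∈ h ++ [p] := by simp
        refine ⟨h3, ?_⟩
        rw [idxOf_append h p p h3, if_neg hq]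
        exact hl
      · have h3 : p ∈ h ++ [q] := by simp [h1]
        refine ⟨h3, ?_⟩
        rw [idxOf_append h q p h3, if_pos h1]
        exact h2
  · ext p
    unfold opp
    simp only [Finset.mem_filter, Finset.mem_univ, true_and]
    constructor
    · rintro ⟨h1, h2⟩
      rw [idxOf_append h q p h1] at h2
      split_ifs at h2 with h3
      · exact ⟨h3, h2⟩
      · exact absurd hl h2
    · rintro ⟨h1, h2⟩
      have h3 : p ∈ h ++ [q] := by simp [h1]
      refine ⟨h3, ?_⟩
      rw [idxOf_append h q p h3, if_pos h1]
      exact h2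

lemma opp_append_odd (h : List P) (q : P) (hl : ¬ Even h.length) (hq : q ∉ h) :
    own (h ++ [q]) = own h ∧ opp (h ++ [q]) = insert q (opp h) := by
  constructor
  · ext p
    unfold own
    simp only [Finset.mem_filter, Finset.mem_univ, true_and]
    constructor
    · rintro ⟨h1, h2⟩
      rw [idxOf_append h q p h1] at h2
      split_ifs at h2 with h3
      · exact ⟨h3, h2⟩
      · exact absurd h2 hl
    · rintro ⟨h1, h2⟩
      have h3 : p ∈ h ++ [q] := by simp [h1]
      refine ⟨h3, ?_⟩
      rw [idxOf_append h q p h3, if_pos h1]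
      exact h2
  · ext p
    unfold opp
    simp only [Finset.mem_filter, Finset.mem_univ, true_and, Finset.mem_insert]
    constructor
    · rintro ⟨h1, h2⟩
      rw [idxOf_append h q p h1] at h2
      rcases (mem_append_iff h q p).1 h1 with h3 | h3
      · rw [if_pos h3] at h2
        exact Or.inr ⟨h3, h2⟩
      · exact Or.inl h3
    · rintro (rfl | ⟨h1, h2⟩)
      · have h3 : p ∈ h ++ [p] := by simp
        refine ⟨h3, ?_⟩
        rw [idxOf_append h p p h3, if_neg hq]
        exact hl
      · have h3 : p ∈ h ++ [q] := by simp [h1]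
        refine ⟨h3, ?_⟩
        rw [idxOf_append h q p h3, if_pos h1]
        exact h2

lemma append_mem (h : List P) (q : P) (hq : q ∈ h) :
    own (h ++ [q]) = own h ∧ opp (h ++ [q]) = opp h := by
  constructor
  · ext p
    unfold own
    simp only [Finset.mem_filter, Finset.mem_univ, true_and]
    constructor
    · rintro ⟨h1, h2⟩
      have h3 : p ∈ h := by
        rcases (mem_append_iff h q p).1 h1 with h3 | h3
        · exact h3
        · rw [h3]; exact hq
      rw [idxOf_append h q p h1, if_pos h3] at h2
      exact ⟨h3, h2⟩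
    · rintro ⟨h1, h2⟩
      have h3 : p ∈ h ++ [q] := by simp [h1]
      refine ⟨h3, ?_⟩
      rw [idxOf_append h q p h3, if_pos h1]
      exact h2
  · ext p
    unfold opp
    simp only [Finset.mem_filter, Finset.mem_univ, true_and]
    constructor
    · rintro ⟨h1, h2⟩
      have h3 : p ∈ h := by
        rcases (mem_append_iff h q p).1 h1 with h3 | h3
        · exact h3
        · rw [h3]; exact hq
      rw [idxOf_append h q p h1, if_pos h3] at h2
      exact ⟨h3, h2⟩
    · rintro ⟨h1, h2⟩
      have h3 : p ∈ h ++ [q] := by simp [h1]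
      refine ⟨h3, ?_⟩
      rw [idxOf_append h q p h3, if_pos h1]
      exact h2

/-- One move. -/
def step (σ τ : List P → P) (h : List P) : List P := h ++ [if Even h.length then σ h else τ h]

omit [Fintype P] [DecidableEq P] in
lemma step_length (σ τ : List P → P) (m : ℕ) : ((step σ τ)^[m] []).length = m := by
  induction m with
  | zero => rfl
  | succ m ih =>
    rw [Function.iterate_succ_apply']
    unfold step at ih ⊢
    rw [List.length_append, ih]
    rfl

open Classical in
/-- Beck's strategy: take a free point of the largest potential. -/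
noncomputable def beck (F : Finset (Finset P)) (p₀ : P) (h : List P) : P :=
  if hne : (univ.filter fun p => p ∉ h).Nonempty then
    (Finset.exists_max_image (univ.filter fun p => p ∉ h) (w F (own h) (opp h)) hne).choose
  else p₀

lemma beck_spec (F : Finset (Finset P)) (p₀ : P) (h : List P) (hex : ∃ p, p ∉ h) :
    beck F p₀ h ∉ h ∧ ∀ p, p ∉ h → w F (own h) (opp h) p ≤ w F (own h) (opp h) (beck F p₀ h) := by
  have hne : (univ.filter fun p => p ∉ h).Nonempty := by
    obtain ⟨p, hp⟩ := hex
    exact ⟨p, by simp [hp]⟩
  unfold beck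
  rw [dif_pos hne]
  have hs := (Finset.exists_max_image (univ.filter fun p => p ∉ h) (w F (own h) (opp h))
    hne).choose_spec
  refine ⟨by simpa using hs.1, fun p hp => hs.2 p (by simpa using hp)⟩

/-- **Beck's criterion.** -/
theorem maker_wins {F : Finset (Finset P)} {V : Finset P} {n : ℕ} (hF : Lin F V n)
    (hbig : 2 ^ n * V.card < 8 * F.card) (p₀ : P) :
    ∃ σ : List P → P, ∀ τ : List P → P, ∃ m : ℕ, ∃ A ∈ F, ∀ p ∈ A,
      p ∈ (step σ τ)^[m] [] ∧ Even (((step σ τ)^[m] []).idxOf p) := by
  refine ⟨beck F p₀, fun τ => ?_⟩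
  set σ := beck F p₀ with hσ
  set H : ℕ → List P := fun r => (step σ τ)^[2 * r] [] with hH
  have hlen : ∀ r, (H r).length = 2 * r := fun r => step_length σ τ (2 * r)
  have hsucc : ∀ r, H (r + 1) = (H r ++ [σ (H r)]) ++ [τ (H r ++ [σ (H r)])] := by
    intro r
    have h1 : H (r + 1) = step σ τ (step σ τ (H r)) := by
      simp only [hH]
      rw [show 2 * (r + 1) = 2 * r + 1 + 1 by ring, Function.iterate_succ_apply',
        Function.iterate_succ_apply']
    have h2 : step σ τ (H r) = H r ++ [σ (H r)] := by
      unfold step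
      rw [if_pos]
      rw [hlen]
      exact even_two_mul r
    rw [h1, h2]
    unfold step
    rw [if_neg]
    rw [List.length_append, hlen]
    simp
  -- the invariant
  have hinv : ∀ r, 0 < Φ F V n (own (H r)) (opp (H r)) ∧
      ((∃ r' ≤ r, ∀ p, p ∈ H r') ∨ r ≤ (own (H r)).card) := by
    intro r
    induction r with
    | zero =>
      have h0 : H 0 = [] := rfl
      rw [h0]
      have e1 : own ([] : List P) = ∅ := by simp [own]
      have e2 : opp ([] : List P) = ∅ := by simp [opp]
      rw [e1, e2]
      refine ⟨?_, Or.inr (Nat.zero_le _)⟩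
      unfold Φ T
      simp only [Finset.disjoint_empty_right, Finset.filter_true, Finset.inter_empty,
        Finset.card_empty, pow_zero, Finset.sum_const, nsmul_eq_mul, mul_one,
        Finset.union_empty, Finset.sdiff_empty]
      have : ((2 ^ n * V.card : ℕ) : ℤ) < ((8 * F.card : ℕ) : ℤ) := by exact_mod_cast hbig
      push_cast at this
      linarith
    | succ r ih =>
      obtain ⟨hpos, hcov⟩ := ih
      rw [hsucc]
      set h := H r with hh
      set x := σ h with hx
      set y := τ (h ++ [x]) with hy
      have hle : Even h.length := by rw [hlen]; exact even_two_mul r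
      have hlo : ¬ Even (h ++ [x]).length := by
        rw [List.length_append, hlen]
        simp
      by_cases hex : ∃ p, p ∉ h
      · obtain ⟨hxh, hxmax⟩ := beck_spec F p₀ h hex
        obtain ⟨o1, o2⟩ := own_append_even h x hle hxh
        have hxM : x ∉ own h := fun hm =>
          hxh ((mem_own_union_opp h x).1 (Finset.mem_union_left _ hm))
        have hxB : x ∉ opp h := fun hm =>
          hxh ((mem_own_union_opp h x).1 (Finset.mem_union_right _ hm))
        have hcard : (own (h ++ [x])).card = (own h).card + 1 := by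
          rw [o1, Finset.card_insert_of_notMem hxM]
        by_cases hyh : y ∈ h ++ [x]
        · obtain ⟨o3, o4⟩ := append_mem (h ++ [x]) y hyh
          rw [o3, o4]
          refine ⟨?_, ?_⟩
          · rw [o1, o2]
            exact lt_of_lt_of_le hpos (Φ_round_waste _ _ hxM)
          · rcases hcov with ⟨r', hr', hall⟩ | hc
            · exact Or.inl ⟨r', by omega, hall⟩
            · right
              rw [hcard]
              omega
        · obtain ⟨o3, o4⟩ := opp_append_odd (h ++ [x]) y hlo hyh
          rw [o3, o4]
          refine ⟨?_, ?_⟩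
          · rw [o1, o2]
            apply lt_of_lt_of_le hpos
            apply Φ_round hF _ _ hxM hxB
            · intro hm
              apply hyh
              rw [← mem_own_union_opp, o1, o2]
              exact hm
            · apply hxmax
              intro hm
              exact hyh (by simp [hm])
          · rcases hcov with ⟨r', hr', hall⟩ | hc
            · exact Or.inl ⟨r', by omega, hall⟩
            · right
              rw [hcard]
              omega
      · push Not at hex
        have hxh : x ∈ h := hex x
        have hyh : y ∈ h ++ [x] := by simp [hex y]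
        obtain ⟨o1, o2⟩ := append_mem h x hxh
        obtain ⟨o3, o4⟩ := append_mem (h ++ [x]) y hyh
        rw [o3, o4, o1, o2]
        exact ⟨hpos, Or.inl ⟨r, by omega, hex⟩⟩
  -- the end of the game
  obtain ⟨r, hall⟩ : ∃ r, ∀ p, p ∈ H r := by
    rcases (hinv (Fintype.card P + 1)).2 with ⟨r', -, hall⟩ | hc
    · exact ⟨r', hall⟩
    · have := Finset.card_le_univ (own (H (Fintype.card P + 1)))
      omega
  have hpos := (hinv r).1
  have hT : 0 < T F (own (H r)) (opp (H r)) := by
    unfold Φ at hpos
    have : (0 : ℤ) ≤ 2 ^ n * ((V \ (own (H r) ∪ opp (H r))).card : ℤ) := by positivity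
    linarith
  have hne : (F.filter (fun A => Disjoint A (opp (H r)))).Nonempty := by
    by_contra hemp
    rw [Finset.not_nonempty_iff_eq_empty] at hemp
    unfold T at hT
    rw [hemp, Finset.sum_empty] at hT
    exact lt_irrefl _ hT
  obtain ⟨A, hA⟩ := hne
  rw [Finset.mem_filter] at hA
  refine ⟨2 * r, A, hA.1, fun p hp => ?_⟩
  have h1 : p ∉ opp (H r) := Finset.disjoint_left.1 hA.2 hp
  have h2 : p ∈ H r := hall p
  refine ⟨h2, ?_⟩
  by_contra hodd
  apply h1
  unfold opp
  simp only [Finset.mem_filter, Finset.mem_univ, true_and]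
  exact ⟨h2, hodd⟩

end game

end WW
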