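import Mathlib
import Pool.Agent.WW.Game

/-!
Lines of `[n]^d` and the sub-board of the points in which every class of values occurs `a` times,
except one class, which occurs `a + k` times.
-/

set_option autoImplicit false

namespace WW

open Finset

variable {n d : ℕ}

/-- The points of the line with the constants `a` and the directions `s` (`0`: constant,
`1`: increasing, `2`: the image of the increasing one under `ρ`). -/
def pt (ρ : Fin n → Fin n) (a : Fin d → Fin n) (s : Fin d → Fin 3) (t : Fin n) : Fin d → Fin n :=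
  fun i => if s i = 0 then a i else if s i = 1 then t else ρ t

/-- The involutions used: the reversal (geometric lines) and the identity (combinatorial lines). -/
structure Inv (ρ : Fin n → Fin n) : Prop where
  inv : ∀ v, ρ (ρ v) = v
  fix : ∀ t t', t ≠ t' → ρ t = t → ρ t' = t' → ∀ v, ρ v = v

lemma Inv.inj {ρ : Fin n → Fin n} (hρ : Inv ρ) {u v : Fin n} (h : ρ u = ρ v) : u = v := by
  rw [← hρ.inv u, h, hρ.inv]

lemma inv_rev : Inv (Fin.rev : Fin n → Fin n) := by
  constructor
  · exact Fin.rev_rev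
  · intro t t' htt ht ht'
    exfalso
    apply htt
    have h1 := congrArg Fin.val ht
    have h2 := congrArg Fin.val ht'
    rw [Fin.val_rev] at h1 h2
    apply Fin.ext
    omega

lemma inv_id : Inv (id : Fin n → Fin n) := ⟨fun _ => rfl, fun _ _ _ _ _ _ => rfl⟩

lemma pt_ne {ρ : Fin n → Fin n} (hρ : Inv ρ) (a : Fin d → Fin n) (s : Fin d → Fin 3)
    {t t' : Fin n} (htt : t ≠ t') (i : Fin d) : pt ρ a s t i = pt ρ a s t' i ↔ s i = 0 := by
  unfold pt
  by_cases h0 : s i = 0
  · simp [h0]
  · by_cases h1 : s i = 1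
    · simp [h1, htt]
    · simp only [h0, h1, if_false]
      constructor
      · intro h
        exact absurd (hρ.inj h) htt
      · intro h
        exact absurd h (by trivial)

lemma pt_injective {ρ : Fin n → Fin n} (hρ : Inv ρ) (a : Fin d → Fin n) (s : Fin d → Fin 3)
    (hs : ∃ i, s i ≠ 0) : Function.Injective (pt ρ a s) := by
  intro t t' h
  by_contra htt
  obtain ⟨i, hi⟩ := hs
  exact hi ((pt_ne hρ a s htt i).1 (congrFun h i))

/-- Lines as sets of points. -/
def IsL (ρ : Fin n → Fin n) (A : Finset (Fin d → Fin n)) : Prop :=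
  ∃ (a : Fin d → Fin n) (s : Fin d → Fin 3), (∃ i, s i ≠ 0) ∧ A = univ.image (pt ρ a s)

lemma IsL.card_eq {ρ : Fin n → Fin n} (hρ : Inv ρ) {A : Finset (Fin d → Fin n)} (hA : IsL ρ A) :
    A.card = n := by
  obtain ⟨a, s, hs, rfl⟩ := hA
  rw [Finset.card_image_of_injective _ (pt_injective hρ a s hs)]
  simp

lemma fin3 (z : Fin 3) (h0 : z ≠ 0) : z = 1 ∨ z = 2 := by
  fin_cases z
  · exact absurd rfl h0
  · exact Or.inl rfl
  · exact Or.inr rfl

lemma pt_of_zero {ρ : Fin n → Fin n} {a : Fin d → Fin n} {s : Fin d → Fin 3} {i : Fin d}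
    (h : s i = 0) (t : Fin n) : pt ρ a s t i = a i := by simp [pt, h]

lemma pt_of_one {ρ : Fin n → Fin n} {a : Fin d → Fin n} {s : Fin d → Fin 3} {i : Fin d}
    (h : s i = 1) (t : Fin n) : pt ρ a s t i = t := by simp [pt, h]

lemma pt_of_two {ρ : Fin n → Fin n} {a : Fin d → Fin n} {s : Fin d → Fin 3} {i : Fin d}
    (h : s i = 2) (t : Fin n) : pt ρ a s t i = ρ t := by simp [pt, h]

/-- Two lines with two common points are equal. -/
lemma line_unique {ρ : Fin n → Fin n} (hρ : Inv ρ) {A A' : Finset (Fin d → Fin n)}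
    (hA : IsL ρ A) (hA' : IsL ρ A') {x y : Fin d → Fin n} (hxy : x ≠ y) (hx : x ∈ A) (hy : y ∈ A)
    (hx' : x ∈ A') (hy' : y ∈ A') : A = A' := by
  obtain ⟨a, s, hs, rfl⟩ := hA
  obtain ⟨a', s', hs', rfl⟩ := hA'
  rw [Finset.mem_image] at hx hy hx' hy'
  obtain ⟨t₁, -, rfl⟩ := hx
  obtain ⟨t₂, -, rfl⟩ := hy
  obtain ⟨u₁, -, h1⟩ := hx'
  obtain ⟨u₂, -, h2⟩ := hy'
  have htt : t₁ ≠ t₂ := by
    rintro rfl
    exact hxy rfl
  have huu : u₁ ≠ u₂ := by
    rintro rfl
    exact hxy (h1.symm.trans h2)
  have hz : ∀ i, s' i = 0 ↔ s i = 0 := by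
    intro i
    rw [← pt_ne hρ a' s' huu i, ← pt_ne hρ a s htt i, h1, h2]
  have ha : ∀ i, s i = 0 → a' i = a i := by
    intro i hi
    have := congrFun h1 i
    rw [pt_of_zero hi, pt_of_zero ((hz i).2 hi)] at this
    exact this
  -- the values at the varying coordinates
  have hval : ∀ i, s i ≠ 0 → (s i = s' i ∧ u₁ = t₁ ∧ u₂ = t₂) ∨
      (s i ≠ s' i ∧ u₁ = ρ t₁ ∧ u₂ = ρ t₂) := by
    intro i hi
    have hi' : s' i ≠ 0 := fun h => hi ((hz i).1 h)
    have e1 := congrFun h1 i
    have e2 := congrFun h2 i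
    rcases fin3 (s i) hi with h | h <;> rcases fin3 (s' i) hi' with h' | h'
    · rw [pt_of_one h, pt_of_one h'] at e1 e2
      exact Or.inl ⟨by rw [h, h'], e1, e2⟩
    · rw [pt_of_one h, pt_of_two h'] at e1 e2
      refine Or.inr ⟨by rw [h, h']; decide, ?_, ?_⟩
      · rw [← e1, hρ.inv]
      · rw [← e2, hρ.inv]
    · rw [pt_of_two h, pt_of_one h'] at e1 e2
      exact Or.inr ⟨by rw [h, h']; decide, e1, e2⟩
    · rw [pt_of_two h, pt_of_two h'] at e1 e2
      exact Or.inl ⟨by rw [h, h'], hρ.inj e1, hρ.inj e2⟩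
  obtain ⟨i₀, hi₀⟩ := hs
  rcases hval i₀ hi₀ with ⟨-, c1, c2⟩ | ⟨-, c1, c2⟩
  · -- the parametrisations agree
    have hpt : ∀ t, pt ρ a s t = pt ρ a' s' t := by
      intro t
      funext i
      by_cases hi : s i = 0
      · rw [pt_of_zero hi, pt_of_zero ((hz i).2 hi), ha i hi]
      · have hi' : s' i ≠ 0 := fun h => hi ((hz i).1 h)
        rcases hval i hi with ⟨e, -, -⟩ | ⟨-, e1, e2⟩
        · rcases fin3 (s i) hi with h | h
          · rw [pt_of_one h, pt_of_one (e ▸ h)]
          · rw [pt_of_two h, pt_of_two (e ▸ h)]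
        · have hid := hρ.fix t₁ t₂ htt (e1.symm.trans c1) (e2.symm.trans c2)
          rcases fin3 (s i) hi with h | h <;> rcases fin3 (s' i) hi' with h' | h' <;>
            simp [pt, h, h', hid]
    rw [show pt ρ a s = pt ρ a' s' from funext hpt]
  · have hpt : ∀ t, pt ρ a s t = pt ρ a' s' (ρ t) := by
      intro t
      funext i
      by_cases hi : s i = 0
      · rw [pt_of_zero hi, pt_of_zero ((hz i).2 hi), ha i hi]
      · have hi' : s' i ≠ 0 := fun h => hi ((hz i).1 h)
        rcases hval i hi with ⟨-, e1, e2⟩ | ⟨e, -, -⟩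
        · have hid := hρ.fix t₁ t₂ htt (c1.symm.trans e1) (c2.symm.trans e2)
          rcases fin3 (s i) hi with h | h <;> rcases fin3 (s' i) hi' with h' | h' <;>
            simp [pt, h, h', hid]
        · rcases fin3 (s i) hi with h | h <;> rcases fin3 (s' i) hi' with h' | h'
          · exact absurd (h.trans h'.symm) e
          · simp [pt, h, h', hρ.inv]
          · simp [pt, h, h']
          · exact absurd (h.trans h'.symm) e
    ext z
    simp only [Finset.mem_image, Finset.mem_univ, true_and]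
    constructor
    · rintro ⟨t, rfl⟩
      exact ⟨ρ t, (hpt t).symm⟩
    · rintro ⟨t, rfl⟩
      exact ⟨ρ t, by rw [hpt, hρ.inv]⟩

open Classical in
/-- All lines inside `V`. -/
noncomputable def linesIn (ρ : Fin n → Fin n) (V : Finset (Fin d → Fin n)) :
    Finset (Finset (Fin d → Fin n)) := univ.filter fun A => IsL ρ A ∧ A ⊆ V

lemma lin_linesIn {ρ : Fin n → Fin n} (hρ : Inv ρ) (V : Finset (Fin d → Fin n)) :
    Lin (linesIn ρ V) V n := by
  classical
  constructor
  · intro A hA
    simp only [linesIn, Finset.mem_filter] at hA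
    exact hA.2.1.card_eq hρ
  · intro A hA
    simp only [linesIn, Finset.mem_filter] at hA
    exact hA.2.2
  · intro A hA A' hA' x y hxy h1 h2 h3 h4
    simp only [linesIn, Finset.mem_filter] at hA hA'
    exact line_unique hρ hA.2.1 hA'.2.1 hxy h1 h2 h3 h4

/-- Double counting: if every point of `V` is on `D` lines inside `V`, there are at least
`D |V| / n` lines. -/
lemma card_lines_ge {ρ : Fin n → Fin n} (hρ : Inv ρ) (V : Finset (Fin d → Fin n)) (D : ℕ)
    (hD : ∀ x ∈ V, D ≤ ((linesIn ρ V).filter fun A => x ∈ A).card) :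
    D * V.card ≤ n * (linesIn ρ V).card := by
  classical
  have h1 : ∑ x ∈ V, ((linesIn ρ V).filter fun A => x ∈ A).card =
      ∑ A ∈ linesIn ρ V, (V.filter fun x => x ∈ A).card :=
    Finset.sum_card_bipartiteAbove_eq_sum_card_bipartiteBelow (fun x A => x ∈ A)
  have h2 : ∑ A ∈ linesIn ρ V, (V.filter fun x => x ∈ A).card = n * (linesIn ρ V).card := by
    rw [Finset.sum_congr rfl (g := fun _ => n), Finset.sum_const, smul_eq_mul, mul_comm]
    intro A hA
    have hL := lin_linesIn hρ V
    refine Eq.trans ?_ (hL.card A hA)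
    congr 1
    ext x
    rw [Finset.mem_filter]
    exact ⟨fun h => h.2, fun h => ⟨hL.sub A hA h, h⟩⟩
  rw [← h2, ← h1, mul_comm, ← smul_eq_mul, ← Finset.sum_const]
  exact Finset.sum_le_sum hD

/-- The class count. -/
def cnt (ρ : Fin n → Fin n) (J : Finset (Fin d)) (x : Fin d → Fin n) (v : Fin n) : ℕ :=
  (J.filter fun i => x i = v ∨ x i = ρ v).card

open Classical in
/-- The sub-board: outside `J` the coordinates are those of `z`; inside `J` every class of values
occurs `a` times, except one class, which occurs `a + k` times. -/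
noncomputable def board (ρ : Fin n → Fin n) (J : Finset (Fin d)) (z : Fin d → Fin n) (a k : ℕ) :
    Finset (Fin d → Fin n) :=
  univ.filter fun x => (∀ i, i ∉ J → x i = z i) ∧ ∃ u : Fin n, ∀ v : Fin n,
    cnt ρ J x v = a + if v = u ∨ v = ρ u then k else 0

/-- The direction vector of the line through `x` with varying coordinates `I`. -/
def dir (x : Fin d → Fin n) (u : Fin n) (I : Finset (Fin d)) : Fin d → Fin 3 :=
  fun i => if i ∈ I then (if x i = u then 1 else 2) else 0

lemma dir_zero {x : Fin d → Fin n} {u : Fin n} {I : Finset (Fin d)} (i : Fin d) :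
    dir x u I i = 0 ↔ i ∉ I := by
  unfold dir
  by_cases h : i ∈ I
  · rw [if_pos h]
    split_ifs <;> simp [h]
  · simp [h]

lemma pt_dir_self {ρ : Fin n → Fin n} (x : Fin d → Fin n) (u : Fin n) (I : Finset (Fin d))
    (hI : ∀ i ∈ I, x i = u ∨ x i = ρ u) : pt ρ x (dir x u I) u = x := by
  funext i
  by_cases h : i ∈ I
  · by_cases hu : x i = u
    · have : dir x u I i = 1 := by simp [dir, h, hu]
      rw [pt_of_one this, hu]
    · have : dir x u I i = 2 := by simp [dir, h, hu]
      rw [pt_of_two this]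
      exact ((hI i h).resolve_left hu).symm
  · rw [pt_of_zero ((dir_zero i).2 h)]

lemma pt_dir_mem {ρ : Fin n → Fin n} (hρ : Inv ρ) (x : Fin d → Fin n) (u : Fin n)
    (I : Finset (Fin d)) (w v : Fin n) {i : Fin d} (hi : i ∈ I) :
    (pt ρ x (dir x u I) w i = v ∨ pt ρ x (dir x u I) w i = ρ v) ↔ (v = w ∨ v = ρ w) := by
  have hne : dir x u I i ≠ 0 := fun h => ((dir_zero i).1 h) hi
  rcases fin3 _ hne with h | h
  · rw [pt_of_one h]
    constructor
    · rintro (h1 | h1)
      · exact Or.inl h1.symm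
      · right; rw [h1, hρ.inv]
    · rintro (h1 | h1)
      · exact Or.inl h1.symm
      · right; rw [h1, hρ.inv]
  · rw [pt_of_two h]
    constructor
    · rintro (h1 | h1)
      · exact Or.inr h1.symm
      · exact Or.inl (hρ.inj h1).symm
    · rintro (h1 | h1)
      · right; rw [h1]
      · left; exact h1.symm

lemma board_line {ρ : Fin n → Fin n} (hρ : Inv ρ) {J : Finset (Fin d)} {z : Fin d → Fin n}
    {a k : ℕ} {x : Fin d → Fin n} {u : Fin n} (hxJ : ∀ i, i ∉ J → x i = z i)
    (hx : ∀ v : Fin n, cnt ρ J x v = a + if v = u ∨ v = ρ u then k else 0)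
    {I : Finset (Fin d)} (hIJ : I ⊆ J) (hI : ∀ i ∈ I, x i = u ∨ x i = ρ u) (hIk : I.card = k) :
    univ.image (pt ρ x (dir x u I)) ⊆ board ρ J z a k := by
  classical
  intro y hy
  rw [Finset.mem_image] at hy
  obtain ⟨w, -, rfl⟩ := hy
  simp only [board, Finset.mem_filter, Finset.mem_univ, true_and]
  refine ⟨?_, w, ?_⟩
  · intro i hi
    rw [pt_of_zero ((dir_zero i).2 fun h => hi (hIJ h)), hxJ i hi]
  · intro v
    -- split into `I` and its complement
    have hsplit : ∀ y : Fin d → Fin n, cnt ρ J y v =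
        (I.filter fun i => y i = v ∨ y i = ρ v).card +
          ((J \ I).filter fun i => y i = v ∨ y i = ρ v).card := by
      intro y
      unfold cnt
      rw [← Finset.card_union_of_disjoint, ← Finset.filter_union,
        Finset.union_sdiff_of_subset hIJ]
      apply Finset.disjoint_filter_filter
      exact Finset.disjoint_sdiff
    have e1 : ((J \ I).filter fun i => pt ρ x (dir x u I) w i = v ∨
        pt ρ x (dir x u I) w i = ρ v) = ((J \ I).filter fun i => x i = v ∨ x i = ρ v) := by
      apply Finset.filter_congr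
      intro i hi
      rw [Finset.mem_sdiff] at hi
      rw [pt_of_zero ((dir_zero i).2 hi.2)]
    have e2 : (I.filter fun i => pt ρ x (dir x u I) w i = v ∨
        pt ρ x (dir x u I) w i = ρ v).card = if v = w ∨ v = ρ w then k else 0 := by
      by_cases h : v = w ∨ v = ρ w
      · rw [if_pos h, Finset.filter_true_of_mem, hIk]
        intro i hi
        exact (pt_dir_mem hρ x u I w v hi).2 h
      · rw [if_neg h, Finset.filter_false_of_mem, Finset.card_empty]
        intro i hi h'
        exact h ((pt_dir_mem hρ x u I w v hi).1 h')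
    have e3 : (I.filter fun i => x i = v ∨ x i = ρ v).card = if v = u ∨ v = ρ u then k else 0 := by
      have hp := fun i (hi : i ∈ I) => pt_dir_mem hρ x u I u v hi
      simp only [pt_dir_self x u I hI] at hp
      by_cases h : v = u ∨ v = ρ u
      · rw [if_pos h, Finset.filter_true_of_mem, hIk]
        intro i hi
        exact (hp i hi).2 h
      · rw [if_neg h, Finset.filter_false_of_mem, Finset.card_empty]
        intro i hi h'
        exact h ((hp i hi).1 h')
    have h4 := hsplit x
    rw [hx v, e3] at h4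
    rw [hsplit, e1, e2]
    omega

/-- The degree of the points of the sub-board. -/
lemma degree_ge {ρ : Fin n → Fin n} (hρ : Inv ρ) (hn : 2 ≤ n) {J : Finset (Fin d)}
    {z : Fin d → Fin n} {a k : ℕ} (hk : 1 ≤ k) {x : Fin d → Fin n} (hx : x ∈ board ρ J z a k) :
    (a + k).choose k ≤ ((linesIn ρ (board ρ J z a k)).filter fun A => x ∈ A).card := by
  classical
  simp only [board, Finset.mem_filter, Finset.mem_univ, true_and] at hx
  obtain ⟨hxJ, u, hu⟩ := hx
  set E := J.filter fun i => x i = u ∨ x i = ρ u with hE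
  have hEcard : E.card = a + k := by
    have := hu u
    unfold cnt at this
    rw [if_pos (Or.inl rfl)] at this
    exact this
  rw [← hEcard, ← Finset.card_powersetCard]
  apply Finset.card_le_card_of_injOn (fun I => univ.image (pt ρ x (dir x u I)))
  · intro I hI
    rw [Finset.mem_coe, Finset.mem_powersetCard] at hI
    obtain ⟨hIE, hIk⟩ := hI
    have hIJ : I ⊆ J := hIE.trans (Finset.filter_subset _ _)
    have hIu : ∀ i ∈ I, x i = u ∨ x i = ρ u := fun i hi => (Finset.mem_filter.1 (hIE hi)).2
    have hne : ∃ i, dir x u I i ≠ 0 := by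
      have : I.Nonempty := by
        rw [← Finset.card_pos]
        omega
      obtain ⟨i, hi⟩ := this
      exact ⟨i, fun h => ((dir_zero i).1 h) hi⟩
    simp only [Finset.coe_filter, Set.mem_ofPred_eq, linesIn, Finset.mem_filter, Finset.mem_univ,
      true_and]
    refine ⟨⟨⟨x, dir x u I, hne, rfl⟩, board_line hρ hxJ hu hIJ hIu hIk⟩, ?_⟩
    rw [Finset.mem_image]
    exact ⟨u, Finset.mem_univ _, pt_dir_self x u I hIu⟩
  · intro I hI I' hI' heq
    -- the varying coordinates are determined by the set of points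
    have key : ∀ I I' : Finset (Fin d), univ.image (pt ρ x (dir x u I)) =
        univ.image (pt ρ x (dir x u I')) → I ⊆ I' := by
      intro I I' heq i hi
      by_contra hi'
      have ht : (⟨0, by omega⟩ : Fin n) ≠ ⟨1, by omega⟩ := by
        intro h
        have := congrArg Fin.val h
        simp at this
      have hne := (pt_ne hρ x (dir x u I) ht i).not.2 (fun h => ((dir_zero i).1 h) hi)
      apply hne
      have hall : ∀ y ∈ univ.image (pt ρ x (dir x u I)), y i = x i := by
        intro y hy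
        rw [heq, Finset.mem_image] at hy
        obtain ⟨w, -, rfl⟩ := hy
        exact pt_of_zero ((dir_zero i).2 hi') w
      rw [hall _ (Finset.mem_image_of_mem _ (Finset.mem_univ _)),
        hall _ (Finset.mem_image_of_mem _ (Finset.mem_univ _))]
    exact Finset.Subset.antisymm (key I I' heq) (key I' I heq.symm)

/-- **The sub-board criterion.** -/
theorem wins_of_board {ρ : Fin n → Fin n} (hρ : Inv ρ) (hn : 2 ≤ n) (J : Finset (Fin d))
    (z : Fin d → Fin n) (a k : ℕ) (hk : 1 ≤ k) (hne : (board ρ J z a k).Nonempty)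
    (hbig : n * 2 ^ n < 8 * (a + k).choose k) :
    ∃ σ : List (Fin d → Fin n) → (Fin d → Fin n), ∀ τ : List (Fin d → Fin n) → (Fin d → Fin n),
      ∃ m : ℕ, ∃ A : Finset (Fin d → Fin n), IsL ρ A ∧ ∀ p ∈ A,
        p ∈ (step σ τ)^[m] [] ∧ Even (((step σ τ)^[m] []).idxOf p) := by
  classical
  set V := board ρ J z a k with hV
  have hL := lin_linesIn hρ V
  have hcount := card_lines_ge hρ V ((a + k).choose k) (fun x hx => degree_ge hρ hn hk hx)
  have hVpos : 0 < V.card := Finset.card_pos.2 hne
  have h1 : 2 ^ n * V.card < 8 * (linesIn ρ V).card := by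
    have h2 : n * 2 ^ n * V.card < 8 * (a + k).choose k * V.card :=
      Nat.mul_lt_mul_of_pos_right hbig hVpos
    have h3 : 8 * (a + k).choose k * V.card ≤ n * (8 * (linesIn ρ V).card) := by
      calc 8 * (a + k).choose k * V.card = 8 * ((a + k).choose k * V.card) := by ring
        _ ≤ 8 * (n * (linesIn ρ V).card) := by gcongr
        _ = _ := by ring
    have h4 : n * (2 ^ n * V.card) < n * (8 * (linesIn ρ V).card) := by
      calc n * (2 ^ n * V.card) = n * 2 ^ n * V.card := by ring
        _ < 8 * (a + k).choose k * V.card := h2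
        _ ≤ _ := h3
    exact lt_of_mul_lt_mul_left h4 (Nat.zero_le _)
  obtain ⟨σ, hσ⟩ := maker_wins hL h1 z
  refine ⟨σ, fun τ => ?_⟩
  obtain ⟨m, A, hA, hp⟩ := hσ τ
  simp only [linesIn, Finset.mem_filter] at hA
  exact ⟨m, A, hA.2.1, hp⟩

end WW
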