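import Mathlib
import Pool.Agent.WW.Lines

/-!
The sub-board is not empty, and the resulting criterion for the first player.
-/

set_option autoImplicit false

namespace WW

open Finset

lemma card_fin_Ico (d l r : ℕ) (h : r ≤ d) :
    (univ.filter fun i : Fin d => l ≤ i.val ∧ i.val < r).card = r - l := by
  rw [← Nat.card_Ico]
  apply Finset.card_bij (fun i _ => i.val)
  · intro i hi
    rw [Finset.mem_filter] at hi
    exact Finset.mem_Ico.2 hi.2
  · intro i _ j _ hij
    exact Fin.ext hij
  · intro m hm
    rw [Finset.mem_Ico] at hm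
    exact ⟨⟨m, by omega⟩, by simp [hm.1, hm.2], rfl⟩

/-- The number of classes is `q`, represented by the values below `q`. -/
def Cls {n : ℕ} (ρ : Fin n → Fin n) (q : ℕ) : Prop :=
  ∀ v : Fin n, ∃ j : Fin n, j.val < q ∧
    ∀ j' : Fin n, j'.val < q → ((j' = v ∨ j' = ρ v) ↔ j' = j)

lemma cls_rev (n : ℕ) : Cls (Fin.rev : Fin n → Fin n) ((n + 1) / 2) := by
  intro v
  by_cases hv : v.val < (n + 1) / 2
  · refine ⟨v, hv, fun j' hj' => ?_⟩
    constructor
    · rintro (h | h)
      · exact h
      · have h1 := congrArg Fin.val h
        rw [Fin.val_rev] at h1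
        have := v.isLt
        apply Fin.ext
        omega
    · exact fun h => Or.inl h
  · have hv2 := v.isLt
    have hr : (Fin.rev v).val < (n + 1) / 2 := by
      rw [Fin.val_rev]
      omega
    refine ⟨Fin.rev v, hr, fun j' hj' => ?_⟩
    constructor
    · rintro (h | h)
      · rw [h] at hj'
        exact absurd hj' hv
      · exact h
    · exact fun h => Or.inr h

lemma cls_id (n : ℕ) : Cls (id : Fin n → Fin n) n := by
  intro v
  refine ⟨v, v.isLt, fun j' _ => ?_⟩
  simp

lemma board_nonempty {n d : ℕ} (hn : 0 < n) {ρ : Fin n → Fin n} (hρ : Inv ρ) {q : ℕ}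
    (hq : 0 < q) (hqn : q ≤ n) (hcls : Cls ρ q) (a k : ℕ) (ha : 0 < a) (hd : k + q * a ≤ d) :
    (board ρ (univ.filter fun i : Fin d => i.val < k + q * a) (fun _ => ⟨0, hn⟩) a k).Nonempty := by
  classical
  set J : Finset (Fin d) := univ.filter fun i : Fin d => i.val < k + q * a with hJ
  have hlt : ∀ i : Fin d, i.val < k + q * a → (i.val - k) / a < q := by
    intro i hi
    rw [Nat.div_lt_iff_lt_mul ha]
    have : 0 < q * a := Nat.mul_pos hq ha
    omega
  let x : Fin d → Fin n := fun i =>
    if h : i.val < k + q * a then ⟨(i.val - k) / a, lt_of_lt_of_le (hlt i h) hqn⟩ else ⟨0, hn⟩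
  refine ⟨x, ?_⟩
  simp only [board, Finset.mem_filter, Finset.mem_univ, true_and]
  refine ⟨?_, ⟨0, hn⟩, ?_⟩
  · intro i hi
    have : ¬ i.val < k + q * a := fun h => hi (by simp [hJ, h])
    simp only [x, dif_neg this]
  · intro v
    obtain ⟨j, hjq, hj⟩ := hcls v
    have hxv : ∀ i ∈ J, (x i = v ∨ x i = ρ v ↔ x i = j) := by
      intro i hi
      have hi' : i.val < k + q * a := by simpa [hJ] using hi
      apply hj
      simp only [x, dif_pos hi']
      exact hlt i hi'
    have h1 : cnt ρ J x v = (J.filter fun i => x i = j).card := by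
      unfold cnt
      congr 1
      apply Finset.filter_congr
      intro i hi
      exact hxv i hi
    have h0 : (v = ⟨0, hn⟩ ∨ v = ρ ⟨0, hn⟩) ↔ j.val = 0 := by
      have h2 := hj ⟨0, hn⟩ hq
      have h3 : (v = ⟨0, hn⟩ ∨ v = ρ ⟨0, hn⟩) ↔
          ((⟨0, hn⟩ : Fin n) = v ∨ (⟨0, hn⟩ : Fin n) = ρ v) := by
        constructor
        · rintro (h | h)
          · exact Or.inl h.symm
          · right; rw [h, hρ.inv]
        · rintro (h | h)
          · exact Or.inl h.symm
          · right; rw [h, hρ.inv]
      rw [h3, h2]
      constructor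
      · intro h
        rw [← h]
      · intro h
        apply Fin.ext
        exact h.symm
    rw [h1]
    have hja : (j.val + 1) * a ≤ q * a := Nat.mul_le_mul_right a hjq
    by_cases hj0 : j.val = 0
    · rw [if_pos (h0.2 hj0)]
      have h2 : (J.filter fun i => x i = j) =
          univ.filter fun i : Fin d => 0 ≤ i.val ∧ i.val < a + k := by
        ext i
        simp only [hJ, Finset.mem_filter, Finset.mem_univ, true_and, Nat.zero_le]
        constructor
        · rintro ⟨h3, h4⟩
          simp only [x, dif_pos h3] at h4
          have h5 := congrArg Fin.val h4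
          simp only at h5
          rw [hj0, Nat.div_eq_zero_iff] at h5
          omega
        · intro h3
          have h4 : i.val < k + q * a := by
            rw [hj0] at hja
            omega
          refine ⟨h4, ?_⟩
          simp only [x, dif_pos h4]
          apply Fin.ext
          simp only
          rw [hj0]
          apply Nat.div_eq_of_lt
          omega
      rw [h2, card_fin_Ico]
      · rfl
      · rw [hj0] at hja
        omega
    · rw [if_neg (fun h => hj0 (h0.1 h)), add_zero]
      have hjapos : a ≤ j.val * a := Nat.le_mul_of_pos_left a (Nat.pos_of_ne_zero hj0)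
      have h2 : (J.filter fun i => x i = j) =
          univ.filter fun i : Fin d => k + j.val * a ≤ i.val ∧ i.val < k + (j.val + 1) * a := by
        ext i
        simp only [hJ, Finset.mem_filter, Finset.mem_univ, true_and]
        constructor
        · rintro ⟨h3, h4⟩
          simp only [x, dif_pos h3] at h4
          have h5 := congrArg Fin.val h4
          simp only at h5
          have h6 : j.val * a ≤ i.val - k := by
            rw [← Nat.le_div_iff_mul_le ha, h5]
          have h7 : i.val - k < (j.val + 1) * a := by
            rw [← Nat.div_lt_iff_lt_mul ha, h5]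
            exact Nat.lt_succ_self _
          omega
        · rintro ⟨h3, h4⟩
          have h5 : i.val < k + q * a := by omega
          refine ⟨h5, ?_⟩
          simp only [x, dif_pos h5]
          apply Fin.ext
          simp only
          apply le_antisymm
          · apply Nat.le_of_lt_succ
            rw [Nat.div_lt_iff_lt_mul ha]
            have : j.val.succ = j.val + 1 := rfl
            rw [this]
            omega
          · rw [Nat.le_div_iff_mul_le ha]
            omega
      rw [h2, card_fin_Ico _ _ _ (by omega)]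
      have : (j.val + 1) * a = j.val * a + a := by ring
      omega

/-- **The criterion**: if `(a + k).choose k > n 2 ^ (n - 3)` and `d ≥ k + q a`, the first player
has a weak win on `[n] ^ d`. -/
theorem wins_of_choose {n d : ℕ} (hn : 2 ≤ n) {ρ : Fin n → Fin n} (hρ : Inv ρ) {q : ℕ}
    (hq : 0 < q) (hqn : q ≤ n) (hcls : Cls ρ q) (a k : ℕ) (ha : 0 < a) (hk : 0 < k)
    (hd : k + q * a ≤ d) (hbig : n * 2 ^ n < 8 * (a + k).choose k) :
    ∃ σ : List (Fin d → Fin n) → (Fin d → Fin n), ∀ τ : List (Fin d → Fin n) → (Fin d → Fin n),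
      ∃ m : ℕ, ∃ A : Finset (Fin d → Fin n), IsL ρ A ∧ ∀ p ∈ A,
        p ∈ (step σ τ)^[m] [] ∧ Even (((step σ τ)^[m] []).idxOf p) :=
  wins_of_board hρ hn _ _ a k hk (board_nonempty (by omega) hρ hq hqn hcls a k ha hd) hbig

end WW
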