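import Mathlib

set_option autoImplicit false

/-!
# Lines of `[n]^d` and the Weak Win

The points of the board `[n]^d` are the functions `Fin d → Fin n` (the values are `0, …, n - 1`).
-/

namespace WW

/-- The geometric lines of `[n]^d`: the sets of the points `x 0, …, x (n - 1)`, where each
coordinate is constant, or equal to `t` at `x t`, or equal to `n - 1 - t` at `x t`, and at least
one coordinate is not constant. -/
def IsLine (n d : ℕ) (l : Finset (Fin d → Fin n)) : Prop :=
  ∃ x : Fin n → Fin d → Fin n,
    (∀ i, (∃ a, ∀ t, x t i = a) ∨ (∀ t, x t i = t) ∨ (∀ t, x t i = Fin.rev t)) ∧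
    (∃ i, ¬ ∃ a, ∀ t, x t i = a) ∧
    l = Finset.univ.image x

/-- The combinatorial lines of `[n]^d`: the sets of the points `x 0, …, x (n - 1)`, where each
coordinate is constant, or equal to `t` at `x t`, and at least one coordinate is not constant. -/
def IsCombLine (n d : ℕ) (l : Finset (Fin d → Fin n)) : Prop :=
  ∃ x : Fin n → Fin d → Fin n,
    (∀ i, (∃ a, ∀ t, x t i = a) ∨ (∀ t, x t i = t)) ∧
    (∃ i, ¬ ∃ a, ∀ t, x t i = a) ∧
    l = Finset.univ.image x

variable {V : Type} [DecidableEq V]

/-- The first player is to move; he owns the points of `X` and the second player owns the points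
of `O`.  `WeakWins line X O` says that the first player can force to own a whole line at some
time, whatever the second player owns. -/
inductive WeakWins (line : Finset V → Prop) : Finset V → Finset V → Prop
  /-- the first player takes the free point `v` and owns a whole line -/
  | own (X O : Finset V) (v : V) (hX : v ∉ X) (hO : v ∉ O)
      (h : ∃ l, line l ∧ l ⊆ insert v X) : WeakWins line X O
  /-- the first player takes the free point `v`; there is still a free point, and after each
  reply the first player can force a weak win -/
  | move (X O : Finset V) (v : V) (hX : v ∉ X) (hO : v ∉ O)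
      (hfree : ∃ w, w ∉ insert v X ∧ w ∉ O)
      (hwin : ∀ w, w ∉ insert v X → w ∉ O → WeakWins line (insert v X) (insert w O)) :
      WeakWins line X O

/-- The Weak Win threshold for geometric lines: the least `d` such that the first player can force
a Weak Win on `[n]^d` (starting from the empty board). -/
noncomputable def wwLine (n : ℕ) : ℕ := sInf {d | WeakWins (IsLine n d) ∅ ∅}

/-- The Weak Win threshold for combinatorial lines. -/
noncomputable def wwComb (n : ℕ) : ℕ := sInf {d | WeakWins (IsCombLine n d) ∅ ∅}

end WW
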