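import Mathlib
import Pool.Agent.WW.Defs
import Pool.Agent.WW.Board

/-!
Beck's criterion for the game in which only free points may be taken
(`WW.WeakWins`), and the sub-board criterion in this form.
-/

set_option autoImplicit false

namespace WW

open Finset

variable {P : Type} [DecidableEq P] [Fintype P]

lemma weakWins_of_potential {line : Finset P → Prop} {F : Finset (Finset P)} {V : Finset P}
    {n : ℕ} (hF : Lin F V n) (hline : ∀ A ∈ F, line A) (m : ℕ) :
    ∀ M B : Finset P, (univ \ (M ∪ B)).card = m → Disjoint M B → (¬ ∃ l, line l ∧ l ⊆ M) →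
      0 < Φ F V n M B → WeakWins line M B := by
  induction m using Nat.strong_induction_on with
  | _ m ih =>
    intro M B hm hMB hno hpos
    -- when the potential is positive some set of the family is free of `B`
    have hset : ∀ M B : Finset P, 0 < Φ F V n M B → ∃ A ∈ F, Disjoint A B := by
      intro M B hpos
      have hT : 0 < T F M B := by
        unfold Φ at hpos
        have : (0 : ℤ) ≤ 2 ^ n * ((V \ (M ∪ B)).card : ℤ) := by positivity
        linarith
      by_contra hcon
      push Not at hcon
      unfold T at hT
      rw [Finset.filter_eq_empty_iff.2, Finset.sum_empty] at hT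
      · exact lt_irrefl _ hT
      · intro A hA
        exact hcon A hA
    -- there is a free point
    have hfree : (univ \ (M ∪ B)).Nonempty := by
      by_contra hcon
      rw [Finset.not_nonempty_iff_eq_empty, Finset.sdiff_eq_empty_iff_subset] at hcon
      obtain ⟨A, hA, hAB⟩ := hset M B hpos
      apply hno
      refine ⟨A, hline A hA, fun p hp => ?_⟩
      have h1 := hcon (Finset.mem_univ p)
      rcases Finset.mem_union.1 h1 with h | h
      · exact h
      · exact absurd h (Finset.disjoint_left.1 hAB hp)
    obtain ⟨x, hx, hmax⟩ := Finset.exists_max_image _ (w F M B) hfree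
    rw [Finset.mem_sdiff, Finset.mem_union, not_or] at hx
    obtain ⟨-, hxM, hxB⟩ := hx
    by_cases hown : ∃ l, line l ∧ l ⊆ insert x M
    · exact WeakWins.own M B x hxM hxB hown
    · have hcardx : (univ \ (insert x M ∪ B)).card + 1 = (univ \ (M ∪ B)).card := by
        have e : univ \ (insert x M ∪ B) = (univ \ (M ∪ B)).erase x := by
          ext z
          simp only [Finset.mem_sdiff, Finset.mem_union, Finset.mem_insert, Finset.mem_erase,
            Finset.mem_univ, true_and]
          tauto
        rw [e]
        apply Finset.card_erase_add_one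
        simp [hxM, hxB]
      refine WeakWins.move M B x hxM hxB ?_ ?_
      · by_contra hcon
        push Not at hcon
        obtain ⟨A, hA, hAB⟩ := hset (insert x M) B
          (lt_of_lt_of_le hpos (Φ_round_waste M B hxM))
        apply hown
        refine ⟨A, hline A hA, fun p hp => ?_⟩
        by_contra hp'
        exact Finset.disjoint_left.1 hAB hp (hcon p hp')
      · intro y hy hyB
        have hyM : y ∉ M := fun h => hy (Finset.mem_insert_of_mem h)
        have hcardy : (univ \ (insert x M ∪ insert y B)).card + 1 =
            (univ \ (insert x M ∪ B)).card := by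
          have e : univ \ (insert x M ∪ insert y B) = (univ \ (insert x M ∪ B)).erase y := by
            ext z
            simp only [Finset.mem_sdiff, Finset.mem_union, Finset.mem_insert, Finset.mem_erase,
              Finset.mem_univ, true_and]
            tauto
          rw [e]
          apply Finset.card_erase_add_one
          rw [Finset.mem_insert, not_or] at hy
          simp [hy.1, hy.2, hyB]
        apply ih _ _ _ _ rfl
        · rw [Finset.disjoint_insert_left, Finset.mem_insert, not_or, Finset.disjoint_insert_right]
          exact ⟨⟨fun h => hy (by rw [h]; exact Finset.mem_insert_self _ _), hxB⟩, hyM, hMB⟩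
        · exact hown
        · apply lt_of_lt_of_le hpos
          apply Φ_round hF M B hxM hxB
          · rw [Finset.mem_union, not_or]
            exact ⟨hy, hyB⟩
          · apply hmax
            rw [Finset.mem_sdiff, Finset.mem_union, not_or]
            exact ⟨Finset.mem_univ _, hyM, hyB⟩
        · omega

/-- **Beck's criterion.** -/
theorem weakWins_of_big {line : Finset P → Prop} {F : Finset (Finset P)} {V : Finset P} {n : ℕ}
    (hF : Lin F V n) (hline : ∀ A ∈ F, line A) (hempty : ¬ line ∅)
    (hbig : 2 ^ n * V.card < 8 * F.card) : WeakWins line ∅ ∅ := by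
  refine weakWins_of_potential hF hline _ ∅ ∅ rfl (by simp) ?_ ?_
  · rintro ⟨l, hl, hl'⟩
    rw [Finset.subset_empty] at hl'
    rw [hl'] at hl
    exact hempty hl
  · unfold Φ T
    simp only [Finset.disjoint_empty_right, Finset.filter_true, Finset.inter_empty,
      Finset.card_empty, pow_zero, Finset.sum_const, nsmul_eq_mul, mul_one,
      Finset.union_empty, Finset.sdiff_empty]
    have : ((2 ^ n * V.card : ℕ) : ℤ) < ((8 * F.card : ℕ) : ℤ) := by exact_mod_cast hbig
    push_cast at this
    linarith

/-- The sub-board criterion. -/
theorem weakWins_of_choose {n d : ℕ} (hn : 2 ≤ n) {ρ : Fin n → Fin n} (hρ : Inv ρ) {q : ℕ}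
    (hq : 0 < q) (hqn : q ≤ n) (hcls : Cls ρ q) (a k : ℕ) (ha : 0 < a) (hk : 0 < k)
    (hd : k + q * a ≤ d) (hbig : n * 2 ^ n < 8 * (a + k).choose k)
    {line : Finset (Fin d → Fin n) → Prop} (hline : ∀ A, IsL ρ A → line A)
    (hempty : ¬ line ∅) : WeakWins line ∅ ∅ := by
  classical
  have hne := board_nonempty (by omega : 0 < n) hρ hq hqn hcls a k ha hd
  set V := board ρ (univ.filter fun i : Fin d => i.val < k + q * a) (fun _ => ⟨0, by omega⟩) a k
    with hV
  have hL := lin_linesIn hρ V
  have hcount := card_lines_ge hρ V ((a + k).choose k) (fun x hx => degree_ge hρ hn hk hx)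
  have hVpos : 0 < V.card := Finset.card_pos.2 hne
  have h1 : 2 ^ n * V.card < 8 * (linesIn ρ V).card := by
    have h2 : n * 2 ^ n * V.card < 8 * (a + k).choose k * V.card :=
      Nat.mul_lt_mul_of_pos_right hbig hVpos
    have h3 : 8 * (a + k).choose k * V.card ≤ n * (8 * (linesIn ρ V).card) := by
      calc 8 * (a + k).choose k * V.card = 8 * ((a + k).choose k * V.card) := by ring
        _ ≤ 8 * (n * (linesIn ρ V).card) := by gcongr
        _ = _ := by ring
    have h4 : n * (2 ^ n * V.card) < n * (8 * (linesIn ρ V).card) := by
      calc n * (2 ^ n * V.card) = n * 2 ^ n * V.card := by ring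
        _ < 8 * (a + k).choose k * V.card := h2
        _ ≤ _ := h3
    exact lt_of_mul_lt_mul_left h4 (Nat.zero_le _)
  refine weakWins_of_big hL ?_ hempty h1
  intro A hA
  simp only [linesIn, Finset.mem_filter] at hA
  exact hline A hA.2.1

end WW
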