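import Mathlib
import Pool.Agent.WW.Ind
import Pool.Agent.WW.Asym

/-!
The Weak Win thresholds are `O(n ^ 2 / log n)`.
-/

set_option autoImplicit false

namespace WW

open Filter

lemma isLine_of_isL {n d : ℕ} (hn : 2 ≤ n) {A : Finset (Fin d → Fin n)}
    (hA : IsL Fin.rev A) : IsLine n d A := by
  obtain ⟨a, s, ⟨i, hi⟩, rfl⟩ := hA
  refine ⟨pt Fin.rev a s, ?_, ⟨i, ?_⟩, rfl⟩
  · intro i
    by_cases h0 : s i = 0
    · exact Or.inl ⟨a i, fun t => pt_of_zero h0 t⟩
    · rcases fin3 _ h0 with h | h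
      · exact Or.inr (Or.inl fun t => pt_of_one h t)
      · exact Or.inr (Or.inr fun t => pt_of_two h t)
  · rintro ⟨b, hb⟩
    have ht : (⟨0, by omega⟩ : Fin n) ≠ ⟨1, by omega⟩ := by
      intro h
      have := congrArg Fin.val h
      simp at this
    exact hi ((pt_ne inv_rev a s ht i).1 ((hb _).trans (hb _).symm))

lemma isCombLine_of_isL {n d : ℕ} (hn : 2 ≤ n) {A : Finset (Fin d → Fin n)}
    (hA : IsL id A) : IsCombLine n d A := by
  obtain ⟨a, s, ⟨i, hi⟩, rfl⟩ := hA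
  refine ⟨pt id a s, ?_, ⟨i, ?_⟩, rfl⟩
  · intro i
    by_cases h0 : s i = 0
    · exact Or.inl ⟨a i, fun t => pt_of_zero h0 t⟩
    · rcases fin3 _ h0 with h | h
      · exact Or.inr fun t => pt_of_one h t
      · exact Or.inr fun t => pt_of_two h t
  · rintro ⟨b, hb⟩
    have ht : (⟨0, by omega⟩ : Fin n) ≠ ⟨1, by omega⟩ := by
      intro h
      have := congrArg Fin.val h
      simp at this
    exact hi ((pt_ne inv_id a s ht i).1 ((hb _).trans (hb _).symm))

lemma not_isLine_empty {n d : ℕ} (hn : 2 ≤ n) : ¬ IsLine n d ∅ := by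
  rintro ⟨x, -, -, h⟩
  have : x ⟨0, by omega⟩ ∈ (∅ : Finset (Fin d → Fin n)) := by
    rw [h]
    exact Finset.mem_image_of_mem _ (Finset.mem_univ _)
  exact absurd this (Finset.notMem_empty _)

lemma not_isCombLine_empty {n d : ℕ} (hn : 2 ≤ n) : ¬ IsCombLine n d ∅ := by
  rintro ⟨x, -, -, h⟩
  have : x ⟨0, by omega⟩ ∈ (∅ : Finset (Fin d → Fin n)) := by
    rw [h]
    exact Finset.mem_image_of_mem _ (Finset.mem_univ _)
  exact absurd this (Finset.notMem_empty _)

/-- Geometric lines. -/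
theorem geometric {ε : ℝ} (hε : 0 < ε) : ∀ᶠ n : ℕ in atTop,
    (wwLine n : ℝ) ≤ (Real.log 2 / 2 + ε) * (n : ℝ) ^ 2 / Real.log n ∧
    WeakWins (IsLine n (wwLine n)) ∅ ∅ ∧
    ∀ d : ℕ, (Real.log 2 / 2 + ε) * (n : ℝ) ^ 2 / Real.log n ≤ d →
      WeakWins (IsLine n d) ∅ ∅ := by
  have h := params (θ := 1 / 2) (ε := min ε (1 / 2)) (by norm_num) (by norm_num)
    (lt_min hε (by norm_num)) (min_le_right _ _)
  filter_upwards [h, eventually_ge_atTop 2] with n hn hn2
  have hn0 : (0 : ℝ) < n := by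
    have : 0 < n := by omega
    exact_mod_cast this
  have hlog : 0 < Real.log n := Real.log_pos (by exact_mod_cast hn2)
  obtain ⟨a, k, ha, hk, hdim, hbig⟩ := hn ((n + 1) / 2) (by
    have h1 : (((n + 1) / 2 : ℕ) : ℝ) ≤ ((n + 1 : ℕ) : ℝ) / 2 := Nat.cast_div_le
    push_cast at h1
    linarith)
  have hbound : ((k + (n + 1) / 2 * a : ℕ) : ℝ) ≤
      (Real.log 2 / 2 + ε) * (n : ℝ) ^ 2 / Real.log n := by
    refine hdim.trans ?_
    apply div_le_div_of_nonneg_right _ hlog.le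
    apply mul_le_mul_of_nonneg_right _ (by positivity)
    have := min_le_left ε (1 / 2)
    linarith
  have hwin : ∀ d : ℕ, k + (n + 1) / 2 * a ≤ d → WeakWins (IsLine n d) ∅ ∅ := by
    intro d hd
    exact weakWins_of_choose hn2 inv_rev (by omega) (by omega) (cls_rev n) a k ha hk hd hbig
      (fun A hA => isLine_of_isL hn2 hA) (not_isLine_empty hn2)
  refine ⟨?_, ?_, ?_⟩
  · refine le_trans ?_ hbound
    exact_mod_cast Nat.sInf_le (hwin _ le_rfl)
  · exact Nat.sInf_mem (s := {d | WeakWins (IsLine n d) ∅ ∅}) ⟨_, hwin _ le_rfl⟩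
  · intro d hd
    apply hwin
    exact_mod_cast hbound.trans hd

/-- Combinatorial lines. -/
theorem combinatorial {ε : ℝ} (hε : 0 < ε) : ∀ᶠ n : ℕ in atTop,
    (wwComb n : ℝ) ≤ (Real.log 2 + ε) * (n : ℝ) ^ 2 / Real.log n ∧
    WeakWins (IsCombLine n (wwComb n)) ∅ ∅ ∧
    ∀ d : ℕ, (Real.log 2 + ε) * (n : ℝ) ^ 2 / Real.log n ≤ d →
      WeakWins (IsCombLine n d) ∅ ∅ := by
  have h := params (θ := 1) (ε := min ε (1 / 2)) (by norm_num) (by norm_num)
    (lt_min hε (by norm_num)) (min_le_right _ _)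
  filter_upwards [h, eventually_ge_atTop 2] with n hn hn2
  have hn0 : (0 : ℝ) < n := by
    have : 0 < n := by omega
    exact_mod_cast this
  have hlog : 0 < Real.log n := Real.log_pos (by exact_mod_cast hn2)
  obtain ⟨a, k, ha, hk, hdim, hbig⟩ := hn n (by linarith)
  have hbound : ((k + n * a : ℕ) : ℝ) ≤ (Real.log 2 + ε) * (n : ℝ) ^ 2 / Real.log n := by
    refine hdim.trans ?_
    apply div_le_div_of_nonneg_right _ hlog.le
    apply mul_le_mul_of_nonneg_right _ (by positivity)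
    have := min_le_left ε (1 / 2)
    linarith
  have hwin : ∀ d : ℕ, k + n * a ≤ d → WeakWins (IsCombLine n d) ∅ ∅ := by
    intro d hd
    exact weakWins_of_choose hn2 inv_id (by omega) le_rfl (cls_id n) a k ha hk hd hbig
      (fun A hA => isCombLine_of_isL hn2 hA) (not_isCombLine_empty hn2)
  refine ⟨?_, ?_, ?_⟩
  · refine le_trans ?_ hbound
    exact_mod_cast Nat.sInf_le (hwin _ le_rfl)
  · exact Nat.sInf_mem (s := {d | WeakWins (IsCombLine n d) ∅ ∅}) ⟨_, hwin _ le_rfl⟩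
  · intro d hd
    apply hwin
    exact_mod_cast hbound.trans hd

end WW
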