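import Mathlib
import Pool.Agent.WW.Final

set_option autoImplicit false

/-!
The Weak Win threshold of the `n^d` Tic-Tac-Toe.
-/

namespace WW

/-- `ww(n)`: the least `d₀` such that the first player has a Weak Win on `[n]^d` (starting from
the empty board) for every `d ≥ d₀`. -/
noncomputable def ww (n : ℕ) : ℕ := sInf {d₀ | ∀ d, d₀ ≤ d → WeakWins (IsLine n d) ∅ ∅}

end WW
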